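import Pool.Agent.K7.H37.UK.Stm

/-! # Project UK, job STR -/

set_option autoImplicit false

noncomputable section

namespace Pool.Agent.K7.H99.UK

open Set Pool.Agent.K7.H37.UK

/-- fibrewise affine homeomorphism -/
def fib (A B : ℝ → ℂ) (hA : Continuous A) (hB : Continuous B) (hB0 : ∀ t, B t ≠ 0) (a b : ℝ)
    (ha : a ≠ 0) : (ℂ × ℝ) ≃ₜ (ℂ × ℝ) where
  toFun x := ((x.1 - A x.2) * B x.2, a * x.2 + b)
  invFun y := (y.1 / B ((y.2 - b) / a) + A ((y.2 - b) / a), (y.2 - b) / a)
  left_inv := by
    rintro ⟨w, t⟩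
    have h : (a * t + b - b) / a = t := by field_simp; ring
    simp only [h]
    rw [mul_div_assoc, div_self (hB0 t), mul_one, sub_add_cancel]
  right_inv := by
    rintro ⟨w, t⟩
    have h : a * ((t - b) / a) + b = t := by field_simp; ring
    simp only [h]
    rw [add_sub_cancel_right, div_mul_cancel₀ _ (hB0 _)]
  continuous_toFun := by fun_prop
  continuous_invFun := by
    have h1 : Continuous fun y : ℂ × ℝ => (y.2 - b) / a := by fun_prop
    refine ((continuous_fst.div (hB.comp h1) fun y => hB0 _).add (hA.comp h1)).prodMk h1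

theorem fib_apply (A B : ℝ → ℂ) (hA : Continuous A) (hB : Continuous B) (hB0 : ∀ t, B t ≠ 0)
    (a b : ℝ) (ha : a ≠ 0) (x : ℂ × ℝ) :
    fib A B hA hB hB0 a b ha x = ((x.1 - A x.2) * B x.2, a * x.2 + b) := rfl

/-- clamp -/
def cl (u v t : ℝ) : ℝ := max u (min t v)

theorem continuous_cl (u v : ℝ) : Continuous (cl u v) := by
  unfold cl
  fun_prop

theorem str : StStr := by
  intro p q α β hαβ hp hq hpα hpβ hne hLp hLq
  obtain ⟨ε1, c0, c1, hε1, hp0, hp1⟩ := hLp
  obtain ⟨ε2, d0, d1, hε2, hq0, hq1⟩ := hLq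
  obtain ⟨ε, hε, hεm, h1, h2⟩ : ∃ ε : ℝ, 0 < ε ∧ ε ≤ (β - α) / 2 ∧ ε ≤ ε1 ∧ ε ≤ ε2 := by
    have h0 : 0 < (β - α) / 2 := by linarith
    exact ⟨min ((β - α) / 2) (min ε1 ε2), by positivity, min_le_left _ _,
      (min_le_right _ _).trans (min_le_left _ _), (min_le_right _ _).trans (min_le_right _ _)⟩
  obtain ⟨m, hm⟩ : ∃ m : ℝ → ℂ, m = fun t => (p t + q t) / 2 := ⟨_, rfl⟩
  obtain ⟨f, hf⟩ : ∃ f : ℝ → ℂ, f = fun t => (q t - p t) / 2 := ⟨_, rfl⟩
  obtain ⟨T, hT⟩ : ∃ T : ℝ → ℝ, T = fun t => min (t - α) (β - t) := ⟨_, rfl⟩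
  have hmc : Continuous m := by rw [hm]; fun_prop
  have hfc : Continuous f := by rw [hf]; fun_prop
  have hTc : Continuous T := by rw [hT]; fun_prop
  obtain ⟨F, hF⟩ : ∃ F : ℝ → ℂ, F = fun t =>
      f (cl (α + ε) (β - ε) t) / ((T (cl (α + ε) (β - ε) t) : ℝ) : ℂ) := ⟨_, rfl⟩
  have hcl : ∀ t, α + ε ≤ cl (α + ε) (β - ε) t ∧ cl (α + ε) (β - ε) t ≤ β - ε := by
    intro t
    unfold cl
    exact ⟨le_max_left _ _, max_le (by linarith) (min_le_right _ _)⟩
  have hTpos : ∀ t, 0 < T (cl (α + ε) (β - ε) t) := by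
    intro t
    obtain ⟨h3, h4⟩ := hcl t
    rw [hT]
    exact lt_min (by linarith) (by linarith)
  have hFc : Continuous F := by
    rw [hF]
    refine (hfc.comp (continuous_cl _ _)).div
      (Complex.continuous_ofReal.comp (hTc.comp (continuous_cl _ _))) fun t => ?_
    exact_mod_cast (hTpos t).ne'
  have hF0 : ∀ t, F t ≠ 0 := by
    intro t
    rw [hF]
    obtain ⟨h3, h4⟩ := hcl t
    refine div_ne_zero ?_ (by exact_mod_cast (hTpos t).ne')
    rw [hf]
    simp only
    intro h5
    have h6 : q (cl (α + ε) (β - ε) t) - p (cl (α + ε) (β - ε) t) = 0 := by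
      have := div_eq_zero_iff.1 h5
      simpa using this
    exact hne _ ⟨by linarith, by linarith⟩ (sub_eq_zero.1 h6).symm
  -- `f = F * T` on `[α, β]`
  have hFT : ∀ t ∈ Icc α β, f t = F t * (T t : ℝ) := by
    intro t ht
    rcases le_or_gt t (α + ε) with h3 | h3
    · -- left end
      have e1 : cl (α + ε) (β - ε) t = α + ε := by
        unfold cl
        exact max_eq_left ((min_le_left _ _).trans h3)
      have e2 : T t = t - α := by
        rw [hT]
        exact min_eq_left (by linarith)
      have e3 : T (α + ε) = ε := by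
        rw [hT]
        simp only
        rw [min_eq_left (by linarith)]
        ring
      have e4 : ∀ s ∈ Icc α (α + ε), f s = ((s - α : ℝ) : ℂ) * ((d0 - c0) / 2) := by
        intro s hs
        rw [hf]
        simp only
        rw [hp0 s ⟨hs.1, by linarith [hs.2]⟩, hq0 s ⟨hs.1, by linarith [hs.2]⟩, hpα]
        ring
      rw [hF]
      simp only
      rw [e1, e3, e2, e4 t ⟨ht.1, h3⟩, e4 (α + ε) ⟨by linarith, le_rfl⟩]
      have e5 : (ε : ℂ) ≠ 0 := by exact_mod_cast hε.ne'
      have e6 : ((α + ε - α : ℝ) : ℂ) = (ε : ℂ) := by push_cast; ring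
      rw [e6]
      field_simp
    · rcases le_or_gt (β - ε) t with h4 | h4
      · -- right end
        have e1 : cl (α + ε) (β - ε) t = β - ε := by
          unfold cl
          rw [min_eq_right h4]
          exact max_eq_right (by linarith)
        have e2 : T t = β - t := by
          rw [hT]
          exact min_eq_right (by linarith)
        have e3 : T (β - ε) = ε := by
          rw [hT]
          simp only
          rw [min_eq_right (by linarith)]
          ring
        have e4 : ∀ s ∈ Icc (β - ε) β, f s = ((β - s : ℝ) : ℂ) * ((d1 - c1) / 2) := by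
          intro s hs
          rw [hf]
          simp only
          rw [hp1 s ⟨by linarith [hs.1], hs.2⟩, hq1 s ⟨by linarith [hs.1], hs.2⟩, hpβ]
          ring
        rw [hF]
        simp only
        rw [e1, e3, e2, e4 t ⟨h4, ht.2⟩, e4 (β - ε) ⟨le_rfl, by linarith⟩]
        have e5 : (ε : ℂ) ≠ 0 := by exact_mod_cast hε.ne'
        have e6 : ((β - (β - ε) : ℝ) : ℂ) = (ε : ℂ) := by push_cast; ring
        rw [e6]
        field_simp
      · have e1 : cl (α + ε) (β - ε) t = t := by
          unfold cl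
          rw [min_eq_left h4.le]
          exact max_eq_right h3.le
        rw [hF]
        simp only
        rw [e1]
        have e5 : ((T t : ℝ) : ℂ) ≠ 0 := by
          have := hTpos t
          rw [e1] at this
          exact_mod_cast this.ne'
        field_simp
  have hd : 0 < β - α := by linarith
  obtain ⟨c, hc⟩ : ∃ c : ℂ, c = ((2 / (β - α) : ℝ) : ℂ) / F α := ⟨_, rfl⟩
  have hc0 : c ≠ 0 := by
    rw [hc]
    refine div_ne_zero ?_ (hF0 α)
    have : (2 / (β - α) : ℝ) ≠ 0 := by positivity
    exact_mod_cast this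
  have h2s : 0 < √2 := by positivity
  have hapos : ∀ r : ℝ, 0 ≤ r → r ≤ 1 → (1 - r) + r * (2 * √2 / (β - α)) ≠ 0 := by
    intro r hr0 hr1
    have h3 : 0 < 2 * √2 / (β - α) := by positivity
    rcases eq_or_lt_of_le hr0 with h4 | h4
    · rw [← h4]; norm_num
    · have : 0 < r * (2 * √2 / (β - α)) := by positivity
      exact (by linarith : 0 < (1 - r) + r * (2 * √2 / (β - α))).ne'
  let H : unitInterval → ((ℂ × ℝ) ≃ₜ (ℂ × ℝ)) := fun r =>
    fib (fun t => ((r : ℝ) : ℂ) * m t)
      (fun t => F ((1 - (r : ℝ)) * t + r * α) / F t * Complex.exp (((r : ℝ) : ℂ) * Complex.log c))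
      (by fun_prop)
      (((hFc.comp (by fun_prop)).div hFc hF0).mul continuous_const)
      (fun t => mul_ne_zero (div_ne_zero (hF0 _) (hF0 _)) (Complex.exp_ne_zero _))
      ((1 - (r : ℝ)) + r * (2 * √2 / (β - α))) (-((r : ℝ) * (√2 * (α + β) / (β - α))))
      (hapos r r.2.1 r.2.2)
  have hH : ∀ (r : unitInterval) (x : ℂ × ℝ), H r x =
      ((x.1 - ((r : ℝ) : ℂ) * m x.2) * (F ((1 - (r : ℝ)) * x.2 + r * α) / F x.2 *
        Complex.exp (((r : ℝ) : ℂ) * Complex.log c)),
      ((1 - (r : ℝ)) + r * (2 * √2 / (β - α))) * x.2 +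
        -((r : ℝ) * (√2 * (α + β) / (β - α)))) := fun r x => rfl
  have u1 : (((1 : unitInterval) : ℝ)) = 1 := rfl
  have u0 : (((0 : unitInterval) : ℝ)) = 0 := rfl
  have hH1 : ∀ x : ℂ × ℝ, H 1 x = ((x.1 - m x.2) / F x.2 * ((2 / (β - α) : ℝ) : ℂ),
      √2 * ((2 * x.2 - α - β) / (β - α))) := by
    intro x
    rw [hH]
    have e1 : Complex.exp (Complex.log c) = c := Complex.exp_log hc0
    ext1
    · simp only [u1, Complex.ofReal_one, one_mul, sub_self, zero_mul, zero_add]
      rw [e1, hc]
      have h3 := hF0 α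
      have h4 := hF0 x.2
      field_simp
    · simp only [u1, one_mul, sub_self, zero_add]
      field_simp
      ring
  refine ⟨H, ?_, ?_, ?_⟩
  · simp only [hH]
    have h3 : Continuous fun x : unitInterval × (ℂ × ℝ) =>
        F ((1 - (x.1 : ℝ)) * x.2.2 + x.1 * α) / F x.2.2 :=
      (hFc.comp (by fun_prop)).div (hFc.comp (by fun_prop)) fun x => hF0 _
    have h4 : Continuous fun x : unitInterval × (ℂ × ℝ) => ((x.1 : ℝ) : ℂ) :=
      Complex.continuous_ofReal.comp (continuous_subtype_val.comp continuous_fst)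
    have h5 : Continuous fun x : unitInterval × (ℂ × ℝ) => m x.2.2 :=
      hmc.comp (by fun_prop)
    refine Continuous.prodMk ?_ (by fun_prop)
    exact ((continuous_fst.comp continuous_snd).sub (h4.mul h5)).mul
      (h3.mul (Complex.continuous_exp.comp (h4.mul continuous_const)))
  · intro x
    rw [hH]
    ext1
    · simp only [u0, Complex.ofReal_zero, zero_mul, sub_zero, Complex.exp_zero,
        mul_one, one_mul, add_zero]
      rw [div_self (hF0 x.2), mul_one]
    · simp
  · have hTs : ∀ t ∈ Icc α β, 2 / (β - α) * T t = 1 - |(2 * t - α - β) / (β - α)| := by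
      intro t ht
      rw [hT]
      simp only
      rcases le_total (t - α) (β - t) with h3 | h3
      · rw [min_eq_left h3, abs_of_nonpos (div_nonpos_of_nonpos_of_nonneg (by linarith) hd.le)]
        field_simp
        ring
      · rw [min_eq_right h3, abs_of_nonneg (div_nonneg (by linarith) hd.le)]
        field_simp
        ring
    have hTn : ∀ t ∈ Icc α β, 0 ≤ T t := by
      intro t ht
      rw [hT]
      exact le_min (by linarith [ht.1]) (by linarith [ht.2])
    have hpt : ∀ t ∈ Icc α β, H 1 (p t, t) = (((-(2 / (β - α) * T t) : ℝ) : ℂ),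
        √2 * ((2 * t - α - β) / (β - α))) := by
      intro t ht
      rw [hH1]
      ext1
      · simp only
        have e1 : p t - m t = -f t := by rw [hm, hf]; ring
        rw [e1, hFT t ht]
        have h3 := hF0 t
        push_cast
        field_simp
      · rfl
    have hqt : ∀ t ∈ Icc α β, H 1 (q t, t) = (((2 / (β - α) * T t : ℝ) : ℂ),
        √2 * ((2 * t - α - β) / (β - α))) := by
      intro t ht
      rw [hH1]
      ext1
      · simp only
        have e1 : q t - m t = f t := by rw [hm, hf]; ring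
        rw [e1, hFT t ht]
        have h3 := hF0 t
        push_cast
        field_simp
      · rfl
    ext y
    constructor
    · rintro ⟨x, (⟨t, ht, rfl⟩ | ⟨t, ht, rfl⟩), rfl⟩
      · refine ⟨-(2 / (β - α) * T t), (2 * t - α - β) / (β - α), ?_, hpt t ht⟩
        rw [abs_neg, abs_of_nonneg (mul_nonneg (by positivity) (hTn t ht)), hTs t ht]
        ring
      · refine ⟨2 / (β - α) * T t, (2 * t - α - β) / (β - α), ?_, hqt t ht⟩
        rw [abs_of_nonneg (mul_nonneg (by positivity) (hTn t ht)), hTs t ht]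
        ring
    · rintro ⟨x, s, hxs, rfl⟩
      have hs1 : |s| ≤ 1 := by linarith [abs_nonneg x]
      rw [abs_le] at hs1
      obtain ⟨t, ht⟩ : ∃ t, t = ((β - α) * s + α + β) / 2 := ⟨_, rfl⟩
      have hst : (2 * t - α - β) / (β - α) = s := by
        rw [ht]
        field_simp
        ring
      have htI : t ∈ Icc α β := by
        rw [ht]
        constructor <;> nlinarith [hs1.1, hs1.2]
      have hT1 := hTs t htI
      rw [hst] at hT1
      rcases le_total 0 x with hx | hx
      · refine ⟨(q t, t), Or.inr ⟨t, htI, rfl⟩, ?_⟩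
        rw [hqt t htI, hst, hT1]
        rw [abs_of_nonneg hx] at hxs
        have : (1 - |s| : ℝ) = x := by linarith
        rw [this]
      · refine ⟨(p t, t), Or.inl ⟨t, htI, rfl⟩, ?_⟩
        rw [hpt t htI, hst, hT1]
        rw [abs_of_nonpos hx] at hxs
        have : (-(1 - |s|) : ℝ) = x := by linarith
        rw [this]

end Pool.Agent.K7.H99.UK
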